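import Mathlib

/-!
Project EC (MP_ecfee9_an): the discrete part of STAR (step 1 of note 1487).
-/

set_option autoImplicit false

namespace Pool.H47.EC

open Finset

/-- horizontal edges `(i,j)-(i+1,j)` of a finite set of grid points -/
def EH (U : Finset (ℤ × ℤ)) : Finset (ℤ × ℤ) := U.filter (fun p => (p.1 + 1, p.2) ∈ U)
/-- vertical edges `(i,j)-(i,j+1)` -/
def EV (U : Finset (ℤ × ℤ)) : Finset (ℤ × ℤ) := U.filter (fun p => (p.1, p.2 + 1) ∈ U)
/-- unit squares with lower left corner `(i,j)` -/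
def FF (U : Finset (ℤ × ℤ)) : Finset (ℤ × ℤ) :=
  U.filter (fun p => (p.1 + 1, p.2) ∈ U ∧ (p.1, p.2 + 1) ∈ U ∧ (p.1 + 1, p.2 + 1) ∈ U)

/-- adjacency of grid points -/
def Adj (v w : ℤ × ℤ) : Prop :=
  w = (v.1 + 1, v.2) ∨ w = (v.1 - 1, v.2) ∨ w = (v.1, v.2 + 1) ∨ w = (v.1, v.2 - 1)

private lemma mem_EH {U : Finset (ℤ × ℤ)} {p : ℤ × ℤ} :
    p ∈ EH U ↔ p ∈ U ∧ (p.1 + 1, p.2) ∈ U := by simp [EH]
private lemma mem_EV {U : Finset (ℤ × ℤ)} {p : ℤ × ℤ} :
    p ∈ EV U ↔ p ∈ U ∧ (p.1, p.2 + 1) ∈ U := by simp [EV]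
private lemma mem_FF {U : Finset (ℤ × ℤ)} {p : ℤ × ℤ} :
    p ∈ FF U ↔ p ∈ U ∧ (p.1 + 1, p.2) ∈ U ∧ (p.1, p.2 + 1) ∈ U ∧ (p.1 + 1, p.2 + 1) ∈ U := by
  simp [FF]

private def ex (S : Finset (ℤ × ℤ)) : (S → ZMod 2) →ₗ[ZMod 2] (ℤ × ℤ → ZMod 2) where
  toFun g := fun p => if h : p ∈ S then g ⟨p, h⟩ else 0
  map_add' g g' := by
    funext p
    by_cases h : p ∈ S <;> simp [h]
  map_smul' c g := by
    funext p
    by_cases h : p ∈ S <;> simp [h]

private lemma ex_mem {S : Finset (ℤ × ℤ)} (g : S → ZMod 2) {p : ℤ × ℤ} (h : p ∈ S) :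
    ex S g p = g ⟨p, h⟩ := by simp [ex, h]
private lemma ex_not {S : Finset (ℤ × ℤ)} (g : S → ZMod 2) {p : ℤ × ℤ} (h : p ∉ S) :
    ex S g p = 0 := by simp [ex, h]

private def d1 (U : Finset (ℤ × ℤ)) :
    ((EH U → ZMod 2) × (EV U → ZMod 2)) →ₗ[ZMod 2] (U → ZMod 2) where
  toFun c := fun v => ex (EH U) c.1 ((v : ℤ × ℤ).1 - 1, (v : ℤ × ℤ).2) + ex (EH U) c.1 v
    + ex (EV U) c.2 ((v : ℤ × ℤ).1, (v : ℤ × ℤ).2 - 1) + ex (EV U) c.2 v
  map_add' c c' := by
    funext v
    simp only [Prod.fst_add, Prod.snd_add, map_add, Pi.add_apply]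
    ring
  map_smul' a c := by
    funext v
    simp only [Prod.smul_fst, Prod.smul_snd, map_smul, Pi.smul_apply, smul_eq_mul, RingHom.id_apply]
    ring

private def d2 (U : Finset (ℤ × ℤ)) :
    (FF U → ZMod 2) →ₗ[ZMod 2] ((EH U → ZMod 2) × (EV U → ZMod 2)) where
  toFun k := (fun e => ex (FF U) k e + ex (FF U) k ((e : ℤ × ℤ).1, (e : ℤ × ℤ).2 - 1),
    fun e => ex (FF U) k e + ex (FF U) k ((e : ℤ × ℤ).1 - 1, (e : ℤ × ℤ).2))
  map_add' c c' := by
    ext v
    · simp only [map_add, Pi.add_apply, Prod.fst_add]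
      ring
    · simp only [map_add, Pi.add_apply, Prod.snd_add]
      ring
  map_smul' a c := by
    ext v
    · simp only [map_smul, Pi.smul_apply, smul_eq_mul, RingHom.id_apply, Prod.smul_fst]
      ring
    · simp only [map_smul, Pi.smul_apply, smul_eq_mul, RingHom.id_apply, Prod.smul_snd]
      ring

private lemma two_z (a : ZMod 2) : a + a = 0 := CharTwo.add_self_eq_zero a
private lemma eq_of_add_z {a b : ZMod 2} (h : a + b = 0) : a = b := by
  have := CharTwo.add_eq_zero.mp h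
  exact this

/-- every 1-cycle of `U` is the boundary of a set of squares of `U` -/
private lemma ker_le (U : Finset (ℤ × ℤ)) (g : ℤ × ℤ → ℝ)
    (hU : ∀ v, v ∉ U → ∃ w, Adj v w ∧ w ∉ U ∧ g w < g v) :
    LinearMap.ker (d1 U) ≤ LinearMap.range (d2 U) := by
  classical
  intro c hc
  rw [LinearMap.mem_ker] at hc
  set h : ℤ × ℤ → ZMod 2 := ex (EH U) c.1 with hh
  set u : ℤ × ℤ → ZMod 2 := ex (EV U) c.2 with hu
  have h0 : ∀ p, p ∉ EH U → h p = 0 := fun p hp => ex_not _ hp
  have u0 : ∀ p, p ∉ EV U → u p = 0 := fun p hp => ex_not _ hp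
  -- vertex condition
  have vc : ∀ i j : ℤ, h (i - 1, j) + h (i, j) + u (i, j - 1) + u (i, j) = 0 := by
    intro i j
    by_cases hp : (i, j) ∈ U
    · have := congrFun hc ⟨(i, j), hp⟩
      simpa [d1] using this
    · have e1 : h (i - 1, j) = 0 := h0 _ (fun hm => hp (by simpa using (mem_EH.mp hm).2))
      have e2 : h (i, j) = 0 := h0 _ (fun hm => hp (mem_EH.mp hm).1)
      have e3 : u (i, j - 1) = 0 := u0 _ (fun hm => hp (by simpa using (mem_EV.mp hm).2))
      have e4 : u (i, j) = 0 := u0 _ (fun hm => hp (mem_EV.mp hm).1)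
      rw [e1, e2, e3, e4]; simp
  -- bounds
  obtain ⟨N, hN⟩ : ∃ N : ℤ, ∀ p ∈ U, -N < p.1 ∧ p.1 < N ∧ -N < p.2 ∧ p.2 < N := by
    refine ⟨∑ p ∈ U, (|p.1| + |p.2| + 1), fun p hp => ?_⟩
    have h1 : |p.1| + |p.2| + 1 ≤ ∑ p ∈ U, (|p.1| + |p.2| + 1) :=
      Finset.single_le_sum (f := fun p : ℤ × ℤ => |p.1| + |p.2| + 1)
        (fun q _ => by positivity) hp
    have h2 := abs_nonneg p.1
    have h3 := abs_nonneg p.2
    have h4 := neg_abs_le p.1
    have h5 := le_abs_self p.1
    have h6 := neg_abs_le p.2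
    have h7 := le_abs_self p.2
    refine ⟨by linarith, by linarith, by linarith, by linarith⟩
  have hout : ∀ i j : ℤ, (i ≤ -N ∨ N ≤ i ∨ j ≤ -N ∨ N ≤ j) → h (i, j) = 0 ∧ u (i, j) = 0 := by
    intro i j hij
    have : (i, j) ∉ U := fun hm => by
      obtain ⟨a1, a2, a3, a4⟩ := hN _ hm
      simp only at a1 a2 a3 a4
      rcases hij with h' | h' | h' | h' <;> linarith
    exact ⟨h0 _ (fun hm => this (mem_EH.mp hm).1), u0 _ (fun hm => this (mem_EV.mp hm).1)⟩
  -- the faces
  set K : ℤ → ℤ → ZMod 2 := fun i j => ∑ i' ∈ Finset.Icc (-N) i, u (i', j) with hK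
  have Klow : ∀ i j : ℤ, i ≤ -N → K i j = 0 := by
    intro i j hi
    apply Finset.sum_eq_zero
    intro x hx
    rw [Finset.mem_Icc] at hx
    exact (hout x j (Or.inl (hx.2.trans hi))).2
  have Kstep : ∀ i j : ℤ, K i j = K (i - 1) j + u (i, j) := by
    intro i j
    by_cases hi : i ≤ -N
    · rw [Klow i j hi, Klow (i - 1) j (by linarith), (hout i j (Or.inl hi)).2]; simp
    · push Not at hi
      have : Finset.Icc (-N) i = insert i (Finset.Icc (-N) (i - 1)) := by
        ext x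
        simp only [Finset.mem_Icc, Finset.mem_insert]
        constructor
        · rintro ⟨a, b⟩
          by_cases hx : x = i
          · exact Or.inl hx
          · exact Or.inr ⟨a, by omega⟩
        · rintro (rfl | ⟨a, b⟩)
          · exact ⟨hi.le, le_refl _⟩
          · exact ⟨a, by omega⟩
      simp only [hK]
      rw [this, Finset.sum_insert (by simp), add_comm]
  have Khor : ∀ (n : ℕ) (j : ℤ), K (-N + n) j + K (-N + n) (j - 1) + h (-N + n, j) = 0 := by
    intro n
    induction n with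
    | zero =>
      intro j
      rw [Klow _ _ (by simp), Klow _ _ (by simp), (hout _ _ (Or.inl (by simp))).1]; simp
    | succ n ih =>
      intro j
      have e1 := Kstep (-N + ((n + 1 : ℕ) : ℤ)) j
      have e2 := Kstep (-N + ((n + 1 : ℕ) : ℤ)) (j - 1)
      have e3 := vc (-N + ((n + 1 : ℕ) : ℤ)) j
      have e4 := ih j
      have e5 : (-N + ((n + 1 : ℕ) : ℤ)) - 1 = -N + (n : ℤ) := by push_cast; ring
      rw [e5] at e1 e2 e3
      rw [e1, e2]
      have e6 : h (-N + (n : ℤ), j) = K (-N + n) j + K (-N + n) (j - 1) := by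
        exact (eq_of_add_z e4).symm
      rw [e6] at e3
      linear_combination e3
  have Khor' : ∀ i j : ℤ, K i j + K i (j - 1) + h (i, j) = 0 := by
    intro i j
    by_cases hi : i ≤ -N
    · rw [Klow _ _ hi, Klow _ _ hi, (hout _ _ (Or.inl hi)).1]; simp
    · push Not at hi
      have := Khor (i + N).toNat j
      have e : -N + (((i + N).toNat : ℕ) : ℤ) = i := by
        rw [Int.toNat_of_nonneg (by linarith)]; ring
      rwa [e] at this
  have Kdown : ∀ i j : ℤ, j ≤ -N → K i j = 0 := by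
    intro i j hj
    apply Finset.sum_eq_zero
    intro x _
    exact (hout x j (Or.inr (Or.inr (Or.inl hj)))).2
  have Kup : ∀ i j : ℤ, N ≤ j → K i j = 0 := by
    intro i j hj
    apply Finset.sum_eq_zero
    intro x _
    exact (hout x j (Or.inr (Or.inr (Or.inr hj)))).2
  have KN : ∀ (n : ℕ), K N (-N + n) = 0 := by
    intro n
    induction n with
    | zero => exact Kdown _ _ (by simp)
    | succ n ih =>
      have := Khor' N (-N + ((n + 1 : ℕ) : ℤ))
      have e5 : (-N + ((n + 1 : ℕ) : ℤ)) - 1 = -N + (n : ℤ) := by push_cast; ring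
      rw [e5, ih, (hout N _ (Or.inr (Or.inl le_rfl))).1] at this
      simpa using this
  have KN' : ∀ j : ℤ, K N j = 0 := by
    intro j
    by_cases hj : j ≤ -N
    · exact Kdown _ _ hj
    · push Not at hj
      have := KN (j + N).toNat
      have e : -N + (((j + N).toNat : ℕ) : ℤ) = j := by
        rw [Int.toNat_of_nonneg (by linarith)]; ring
      rwa [e] at this
  have Kright : ∀ (n : ℕ) (j : ℤ), K (N + n) j = 0 := by
    intro n
    induction n with
    | zero => intro j; simpa using KN' j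
    | succ n ih =>
      intro j
      have := Kstep (N + ((n + 1 : ℕ) : ℤ)) j
      have e5 : (N + ((n + 1 : ℕ) : ℤ)) - 1 = N + (n : ℤ) := by push_cast; ring
      rw [e5, ih, (hout _ _ (Or.inr (Or.inl (by push_cast; linarith [Int.natCast_nonneg n])))).2] at this
      simpa using this
  have Kright' : ∀ i j : ℤ, N ≤ i → K i j = 0 := by
    intro i j hi
    have := Kright (i - N).toNat j
    have e : N + (((i - N).toNat : ℕ) : ℤ) = i := by
      rw [Int.toNat_of_nonneg (by linarith)]; ring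
    rwa [e] at this
  -- bad vertices
  have hgood : ∀ i j : ℤ, K i j ≠ 0 → (i, j) ∈ U ∧ (i + 1, j) ∈ U ∧ (i, j + 1) ∈ U ∧
      (i + 1, j + 1) ∈ U := by
    by_contra hcon
    set S : Finset (ℤ × ℤ) := (Finset.Icc (-N) (N + 1) ×ˢ Finset.Icc (-N) (N + 1)).filter
      (fun v => v ∉ U ∧ (K v.1 v.2 ≠ 0 ∨ K (v.1 - 1) v.2 ≠ 0 ∨ K v.1 (v.2 - 1) ≠ 0 ∨
        K (v.1 - 1) (v.2 - 1) ≠ 0)) with hS
    have Kin : ∀ i j : ℤ, K i j ≠ 0 → -N < i ∧ i < N ∧ -N < j ∧ j < N := by
      intro i j hij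
      refine ⟨?_, ?_, ?_, ?_⟩
      · by_contra hx; exact hij (Klow _ _ (by linarith))
      · by_contra hx; exact hij (Kright' _ _ (by linarith))
      · by_contra hx; exact hij (Kdown _ _ (by linarith))
      · by_contra hx; exact hij (Kup _ _ (by linarith))
    have memS : ∀ v : ℤ × ℤ, v ∉ U → (K v.1 v.2 ≠ 0 ∨ K (v.1 - 1) v.2 ≠ 0 ∨ K v.1 (v.2 - 1) ≠ 0 ∨
        K (v.1 - 1) (v.2 - 1) ≠ 0) → v ∈ S := by
      intro v hv hk
      rw [hS, Finset.mem_filter, Finset.mem_product, Finset.mem_Icc, Finset.mem_Icc]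
      refine ⟨?_, hv, hk⟩
      rcases hk with hk | hk | hk | hk
      all_goals
        obtain ⟨a1, a2, a3, a4⟩ := Kin _ _ hk
        refine ⟨⟨by omega, by omega⟩, ⟨by omega, by omega⟩⟩
    have hne : S.Nonempty := by
      push Not at hcon
      obtain ⟨i, j, hij, hcor⟩ := hcon
      by_cases c1 : (i, j) ∈ U
      · by_cases c2 : (i + 1, j) ∈ U
        · by_cases c3 : (i, j + 1) ∈ U
          · exact ⟨_, memS (i + 1, j + 1) (hcor c1 c2 c3)
              (Or.inr (Or.inr (Or.inr (by simpa using hij))))⟩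
          · exact ⟨_, memS (i, j + 1) c3 (Or.inr (Or.inr (Or.inl (by simpa using hij))))⟩
        · exact ⟨_, memS (i + 1, j) c2 (Or.inr (Or.inl (by simpa using hij)))⟩
      · exact ⟨_, memS (i, j) c1 (Or.inl hij)⟩
    obtain ⟨v, hvS, hmin⟩ := Finset.exists_min_image S g hne
    rw [hS, Finset.mem_filter] at hvS
    obtain ⟨-, hvU, hvK⟩ := hvS
    obtain ⟨w, hadj, hwU, hgw⟩ := hU v hvU
    -- all four faces at v are equal
    obtain ⟨i, j⟩ := v
    simp only at hvK hvU hadj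
    have q1 : u (i, j) = 0 := u0 _ (fun hm => hvU (mem_EV.mp hm).1)
    have q2 : u (i, j - 1) = 0 := u0 _ (fun hm => hvU (by simpa using (mem_EV.mp hm).2))
    have q3 : h (i, j) = 0 := h0 _ (fun hm => hvU (mem_EH.mp hm).1)
    have q4 : h (i - 1, j) = 0 := h0 _ (fun hm => hvU (by simpa using (mem_EH.mp hm).2))
    have r1 : K i j = K (i - 1) j := by have := Kstep i j; rw [q1] at this; simpa using this
    have r2 : K i (j - 1) = K (i - 1) (j - 1) := by
      have := Kstep i (j - 1); rw [q2] at this; simpa using this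
    have r3 : K i j = K i (j - 1) := by
      have := Khor' i j; rw [q3, add_zero] at this; exact eq_of_add_z this
    have r4 : K (i - 1) j = K (i - 1) (j - 1) := by
      have := Khor' (i - 1) j; rw [q4, add_zero] at this; exact eq_of_add_z this
    have hKij : K i j ≠ 0 := by
      rcases hvK with hk | hk | hk | hk
      · exact hk
      · rwa [r1]
      · rwa [r3]
      · rwa [r3, r2]
    have hwS : w ∈ S := by
      apply memS w hwU
      unfold Adj at hadj
      simp only at hadj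
      rcases hadj with rfl | rfl | rfl | rfl
      · right; left; simpa using hKij
      · left; rw [← r1]; exact hKij
      · right; right; left; simpa using hKij
      · left; rw [← r3]; exact hKij
    exact absurd (hmin w hwS) (not_le.mpr hgw)
  refine ⟨fun e => K (e : ℤ × ℤ).1 (e : ℤ × ℤ).2, ?_⟩
  have exK : ∀ i j : ℤ, ex (FF U) (fun e => K (e : ℤ × ℤ).1 (e : ℤ × ℤ).2) (i, j) = K i j := by
    intro i j
    by_cases hm : (i, j) ∈ FF U
    · rw [ex_mem _ hm]
    · rw [ex_not _ hm]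
      by_contra hne
      exact hm (mem_FF.mpr (hgood i j (Ne.symm hne)))
  ext ⟨⟨i, j⟩, he⟩
  · show ex (FF U) _ (i, j) + ex (FF U) _ (i, j - 1) = c.1 ⟨(i, j), he⟩
    rw [exK, exK, ← ex_mem c.1 he]
    exact eq_of_add_z (Khor' i j)
  · show ex (FF U) _ (i, j) + ex (FF U) _ (i - 1, j) = c.2 ⟨(i, j), he⟩
    rw [exK, exK, ← ex_mem c.2 he]
    have := Kstep i j
    rw [this]
    have h2 := two_z (K (i - 1) j)
    change K (i - 1) j + u (i, j) + K (i - 1) j = u (i, j)
    linear_combination h2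


private lemma range_le {ι : Type*} [Fintype ι] [DecidableEq ι] (U : Finset (ℤ × ℤ))
    (B : ι → Set (ℤ × ℤ))
    (hcl : ∀ i, ∀ v ∈ U, ∀ w ∈ U, Adj v w → v ∈ B i → w ∈ B i)
    (hdis : ∀ i i', ∀ v, v ∈ B i → v ∈ B i' → i = i')
    (hne : ∀ i, ∃ v ∈ U, v ∈ B i) :
    Module.finrank (ZMod 2) (LinearMap.range (d1 U)) + Fintype.card ι ≤ U.card := by
  classical
  set φ : (U → ZMod 2) →ₗ[ZMod 2] (ι → ZMod 2) :=
    { toFun := fun c i => ∑ v ∈ U.filter (fun v => v ∈ B i), ex U c v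
      map_add' := by
        intro c c'
        funext i
        simp only [map_add, Pi.add_apply, Finset.sum_add_distrib]
      map_smul' := by
        intro a c
        funext i
        simp only [map_smul, Pi.smul_apply, smul_eq_mul, Finset.mul_sum, RingHom.id_apply] } with hφ
  have φap : ∀ c i, φ c i = ∑ v ∈ U.filter (fun v => v ∈ B i), ex U c v := fun c i => rfl
  have hle : LinearMap.range (d1 U) ≤ LinearMap.ker φ := by
    rintro _ ⟨c, rfl⟩
    rw [LinearMap.mem_ker]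
    funext i
    rw [φap]
    have hval : ∀ v ∈ U.filter (fun v => v ∈ B i), ex U (d1 U c) v
        = (ex (EH U) c.1 (v.1 - 1, v.2) + ex (EH U) c.1 v)
          + (ex (EV U) c.2 (v.1, v.2 - 1) + ex (EV U) c.2 v) := by
      intro v hv
      rw [Finset.mem_filter] at hv
      rw [ex_mem _ hv.1]
      show ex (EH U) c.1 (v.1 - 1, v.2) + ex (EH U) c.1 v + ex (EV U) c.2 (v.1, v.2 - 1)
        + ex (EV U) c.2 v = _
      ring
    rw [Finset.sum_congr rfl hval, Finset.sum_add_distrib, Finset.sum_add_distrib,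
      Finset.sum_add_distrib]
    -- horizontal
    have H1 : ∑ v ∈ U.filter (fun v => v ∈ B i), ex (EH U) c.1 v
        = ∑ e ∈ (EH U).filter (fun v => v ∈ B i), ex (EH U) c.1 e := by
      symm
      apply Finset.sum_subset
      · intro e he
        rw [Finset.mem_filter] at he ⊢
        exact ⟨(mem_EH.mp he.1).1, he.2⟩
      · intro e he hn
        rw [Finset.mem_filter] at he hn
        exact ex_not _ (fun hm => hn ⟨hm, he.2⟩)
    have H2 : ∑ v ∈ U.filter (fun v => v ∈ B i), ex (EH U) c.1 (v.1 - 1, v.2)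
        = ∑ e ∈ (EH U).filter (fun v => v ∈ B i), ex (EH U) c.1 e := by
      have : ∑ e ∈ (EH U).filter (fun v => v ∈ B i), ex (EH U) c.1 e
          = ∑ v ∈ ((EH U).filter (fun v => v ∈ B i)).image (fun e => (e.1 + 1, e.2)),
            ex (EH U) c.1 (v.1 - 1, v.2) := by
        rw [Finset.sum_image]
        · apply Finset.sum_congr rfl
          rintro ⟨a, b⟩ _
          simp
        · intro a _ b _ hab
          simp only [Prod.mk.injEq] at hab
          exact Prod.ext (by linarith [hab.1]) hab.2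
      rw [this]
      symm
      apply Finset.sum_subset
      · intro v hv
        rw [Finset.mem_image] at hv
        obtain ⟨e, he, rfl⟩ := hv
        rw [Finset.mem_filter] at he ⊢
        have hE := mem_EH.mp he.1
        exact ⟨hE.2, hcl i e hE.1 _ hE.2 (Or.inl rfl) he.2⟩
      · intro v hv hn
        rw [Finset.mem_filter] at hv
        apply ex_not
        intro hm
        apply hn
        rw [Finset.mem_image]
        refine ⟨(v.1 - 1, v.2), ?_, ?_⟩
        · rw [Finset.mem_filter]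
          exact ⟨hm, hcl i v hv.1 _ (mem_EH.mp hm).1 (Or.inr (Or.inl rfl)) hv.2⟩
        · ext <;> simp
    have V1 : ∑ v ∈ U.filter (fun v => v ∈ B i), ex (EV U) c.2 v
        = ∑ e ∈ (EV U).filter (fun v => v ∈ B i), ex (EV U) c.2 e := by
      symm
      apply Finset.sum_subset
      · intro e he
        rw [Finset.mem_filter] at he ⊢
        exact ⟨(mem_EV.mp he.1).1, he.2⟩
      · intro e he hn
        rw [Finset.mem_filter] at he hn
        exact ex_not _ (fun hm => hn ⟨hm, he.2⟩)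
    have V2 : ∑ v ∈ U.filter (fun v => v ∈ B i), ex (EV U) c.2 (v.1, v.2 - 1)
        = ∑ e ∈ (EV U).filter (fun v => v ∈ B i), ex (EV U) c.2 e := by
      have : ∑ e ∈ (EV U).filter (fun v => v ∈ B i), ex (EV U) c.2 e
          = ∑ v ∈ ((EV U).filter (fun v => v ∈ B i)).image (fun e => (e.1, e.2 + 1)),
            ex (EV U) c.2 (v.1, v.2 - 1) := by
        rw [Finset.sum_image]
        · apply Finset.sum_congr rfl
          rintro ⟨a, b⟩ _
          simp
        · intro a _ b _ hab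
          simp only [Prod.mk.injEq] at hab
          exact Prod.ext hab.1 (by linarith [hab.2])
      rw [this]
      symm
      apply Finset.sum_subset
      · intro v hv
        rw [Finset.mem_image] at hv
        obtain ⟨e, he, rfl⟩ := hv
        rw [Finset.mem_filter] at he ⊢
        have hE := mem_EV.mp he.1
        exact ⟨hE.2, hcl i e hE.1 _ hE.2 (Or.inr (Or.inr (Or.inl rfl))) he.2⟩
      · intro v hv hn
        rw [Finset.mem_filter] at hv
        apply ex_not
        intro hm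
        apply hn
        rw [Finset.mem_image]
        refine ⟨(v.1, v.2 - 1), ?_, ?_⟩
        · rw [Finset.mem_filter]
          exact ⟨hm, hcl i v hv.1 _ (mem_EV.mp hm).1 (Or.inr (Or.inr (Or.inr rfl))) hv.2⟩
        · ext <;> simp
    rw [H1, H2, V1, V2, two_z, two_z]
    simp
  choose z hzU hzB using hne
  have hsurj : LinearMap.range φ = ⊤ := by
    rw [LinearMap.range_eq_top]
    intro t
    refine ⟨fun v => ∑ i, if z i = v then t i else 0, ?_⟩
    funext i0
    rw [φap]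
    have hval : ∀ v ∈ U.filter (fun v => v ∈ B i0),
        ex U (fun v => ∑ i, if z i = v then t i else 0) v = if z i0 = v then t i0 else 0 := by
      intro v hv
      rw [Finset.mem_filter] at hv
      rw [ex_mem _ hv.1]
      show (∑ i, if z i = v then t i else 0) = _
      rw [Finset.sum_eq_single i0]
      · intro i _ hi
        rw [if_neg]
        intro hz
        exact hi (hdis i i0 v (hz ▸ hzB i) hv.2)
      · intro hn
        exact absurd (Finset.mem_univ _) hn
    rw [Finset.sum_congr rfl hval, Finset.sum_ite_eq]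
    rw [if_pos]
    rw [Finset.mem_filter]
    exact ⟨hzU i0, hzB i0⟩
  have e1 := LinearMap.finrank_range_add_finrank_ker φ
  rw [hsurj, finrank_top, Module.finrank_fintype_fun_eq_card, Module.finrank_fintype_fun_eq_card,
    Fintype.card_coe] at e1
  have e2 := Submodule.finrank_mono hle
  omega

/-- **Euler characteristic of a set of grid points without holes**: if every grid point outside
the finite set `U` has a neighbour outside `U` with smaller value of the potential `g`, then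
`V - E + F` is at least the number of disjoint nonempty sets `B i ∩ U` closed under adjacency. -/
theorem euler_ge {ι : Type*} [Fintype ι] (U : Finset (ℤ × ℤ)) (g : ℤ × ℤ → ℝ)
    (hU : ∀ v, v ∉ U → ∃ w, Adj v w ∧ w ∉ U ∧ g w < g v)
    (B : ι → Set (ℤ × ℤ))
    (hcl : ∀ i, ∀ v ∈ U, ∀ w ∈ U, Adj v w → v ∈ B i → w ∈ B i)
    (hdis : ∀ i i', ∀ v, v ∈ B i → v ∈ B i' → i = i')
    (hne : ∀ i, ∃ v ∈ U, v ∈ B i) :
    (EH U).card + (EV U).card + Fintype.card ι ≤ U.card + (FF U).card := by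
  classical
  have h1 := LinearMap.finrank_range_add_finrank_ker (d1 U)
  rw [Module.finrank_prod, Module.finrank_fintype_fun_eq_card, Module.finrank_fintype_fun_eq_card,
    Fintype.card_coe, Fintype.card_coe] at h1
  have h2 := Submodule.finrank_mono (ker_le U g hU)
  have h3 := LinearMap.finrank_range_le (d2 U)
  rw [Module.finrank_fintype_fun_eq_card, Fintype.card_coe] at h3
  have h4 := range_le U B hcl hdis hne
  omega


/-! ### layer cake -/

private noncomputable def ind (a : ℝ) (l : ℝ) : ℝ := if l < a then 1 else 0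

private def Lay (M : ℝ) (φ : ℝ → ℝ) (a : ℝ) : Prop :=
  MeasureTheory.IntegrableOn φ (Set.Ioc 0 M) ∧ ∫ l in Set.Ioc (0 : ℝ) M, φ l = a

private lemma lay_ind {M a : ℝ} (h0 : 0 ≤ a) (hM : a ≤ M) : Lay M (ind a) a := by
  have e : ind a = Set.indicator (Set.Iio a) (fun _ => (1 : ℝ)) := by
    funext l
    simp [ind, Set.indicator_apply]
  have hint : MeasureTheory.IntegrableOn (fun _ : ℝ => (1 : ℝ)) (Set.Ioc (0 : ℝ) M) :=
    MeasureTheory.integrableOn_const (by simp)
  constructor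
  · rw [e]
    exact MeasureTheory.Integrable.indicator hint measurableSet_Iio
  · rw [e, MeasureTheory.integral_indicator measurableSet_Iio,
      MeasureTheory.Measure.restrict_restrict measurableSet_Iio]
    have : Set.Iio a ∩ Set.Ioc 0 M = Set.Ioo 0 a := by
      ext x
      simp only [Set.mem_inter_iff, Set.mem_Iio, Set.mem_Ioc, Set.mem_Ioo]
      constructor
      · rintro ⟨h1, h2, h3⟩
        exact ⟨h2, h1⟩
      · rintro ⟨h1, h2⟩
        exact ⟨h2, h1, by linarith⟩
    rw [this]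
    simp [h0]

private lemma lay_add {M a b : ℝ} {φ ψ : ℝ → ℝ} (h1 : Lay M φ a) (h2 : Lay M ψ b) :
    Lay M (fun l => φ l + ψ l) (a + b) := by
  refine ⟨h1.1.add h2.1, ?_⟩
  have := MeasureTheory.integral_add h1.1 h2.1
  rw [h1.2, h2.2] at this
  exact this

private lemma lay_sub {M a b : ℝ} {φ ψ : ℝ → ℝ} (h1 : Lay M φ a) (h2 : Lay M ψ b) :
    Lay M (fun l => φ l - ψ l) (a - b) := by
  refine ⟨h1.1.sub h2.1, ?_⟩
  have := MeasureTheory.integral_sub h1.1 h2.1
  rw [h1.2, h2.2] at this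
  exact this

private lemma lay_sum {M : ℝ} {κ : Type*} (s : Finset κ) (φ : κ → ℝ → ℝ) (a : κ → ℝ)
    (h : ∀ k ∈ s, Lay M (φ k) (a k)) : Lay M (fun l => ∑ k ∈ s, φ k l) (∑ k ∈ s, a k) := by
  refine ⟨MeasureTheory.integrable_finsetSum s (fun k hk => (h k hk).1), ?_⟩
  rw [MeasureTheory.integral_finsetSum s (fun k hk => (h k hk).1)]
  exact Finset.sum_congr rfl (fun k hk => (h k hk).2)

private lemma lay_nonneg {M a : ℝ} {φ : ℝ → ℝ} (h : Lay M φ a) (h0 : ∀ l, 0 < l → 0 ≤ φ l) :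
    0 ≤ a := by
  rw [← h.2]
  apply MeasureTheory.setIntegral_nonneg measurableSet_Ioc
  intro l hl
  exact h0 l hl.1

/-- the sum attached to a grid cell -/
noncomputable def cellJ (f : ℕ → ℕ → ℝ) (i j : ℕ) : ℝ :=
  f i j - min (f i j) (f (i + 1) j) - min (f i j) (f i (j + 1))
    + min (min (f i j) (f (i + 1) j)) (min (f i (j + 1)) (f (i + 1) (j + 1)))

private def cst (p : ℕ × ℕ) : ℤ × ℤ := ((p.1 : ℤ), (p.2 : ℤ))

private lemma cst_inj : Function.Injective cst := by
  intro p q h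
  simp only [cst, Prod.mk.injEq, Nat.cast_inj] at h
  exact Prod.ext h.1 h.2

private noncomputable def Ul (m n : ℕ) (f : ℕ → ℕ → ℝ) (l : ℝ) : Finset (ℤ × ℤ) :=
  ((range (m + 1) ×ˢ range (n + 1)).filter (fun p => l < f p.1 p.2)).image cst

private lemma mem_Ul {m n : ℕ} {f : ℕ → ℕ → ℝ} {l : ℝ} {i j : ℕ} :
    ((i : ℤ), (j : ℤ)) ∈ Ul m n f l ↔ i ≤ m ∧ j ≤ n ∧ l < f i j := by
  unfold Ul
  rw [Finset.mem_image]
  constructor
  · rintro ⟨p, hp, hc⟩
    rw [Finset.mem_filter, Finset.mem_product, Finset.mem_range, Finset.mem_range] at hp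
    simp only [cst, Prod.mk.injEq, Nat.cast_inj] at hc
    obtain ⟨rfl, rfl⟩ := hc
    exact ⟨by omega, by omega, hp.2⟩
  · rintro ⟨h1, h2, h3⟩
    refine ⟨(i, j), ?_, rfl⟩
    rw [Finset.mem_filter, Finset.mem_product, Finset.mem_range, Finset.mem_range]
    exact ⟨⟨by simp only; omega, by simp only; omega⟩, h3⟩

private lemma Ul_form {m n : ℕ} {f : ℕ → ℕ → ℝ} {l : ℝ} {v : ℤ × ℤ} (h : v ∈ Ul m n f l) :
    ∃ i j : ℕ, v = ((i : ℤ), (j : ℤ)) ∧ i ≤ m ∧ j ≤ n ∧ l < f i j := by
  have h' := h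
  unfold Ul at h
  rw [Finset.mem_image] at h
  obtain ⟨p, hp, rfl⟩ := h
  exact ⟨p.1, p.2, rfl, mem_Ul.mp h'⟩

private lemma card_filt {κ : Type*} (s : Finset κ) (q : κ → ℝ) (l : ℝ) :
    ((s.filter (fun p => l < q p)).card : ℝ) = ∑ p ∈ s, ind (q p) l := by
  rw [Finset.card_filter]
  push_cast
  rfl

private lemma card_U (m n : ℕ) (f : ℕ → ℕ → ℝ) (l : ℝ) :
    ((Ul m n f l).card : ℝ) = ∑ p ∈ range (m + 1) ×ˢ range (n + 1), ind (f p.1 p.2) l := by
  unfold Ul
  rw [Finset.card_image_of_injective _ cst_inj, card_filt]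

private lemma card_EH (m n : ℕ) (f : ℕ → ℕ → ℝ) (l : ℝ) :
    ((EH (Ul m n f l)).card : ℝ)
      = ∑ p ∈ range m ×ˢ range (n + 1), ind (min (f p.1 p.2) (f (p.1 + 1) p.2)) l := by
  have : EH (Ul m n f l) = ((range m ×ˢ range (n + 1)).filter
      (fun p => l < min (f p.1 p.2) (f (p.1 + 1) p.2))).image cst := by
    ext v
    rw [mem_EH, Finset.mem_image]
    constructor
    · rintro ⟨h1, h2⟩
      obtain ⟨i, j, rfl, hi, hj, hl⟩ := Ul_form h1
      have h2' : (((i + 1 : ℕ) : ℤ), (j : ℤ)) ∈ Ul m n f l := by simpa using h2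
      rw [mem_Ul] at h2'
      refine ⟨(i, j), ?_, rfl⟩
      rw [Finset.mem_filter, Finset.mem_product, Finset.mem_range, Finset.mem_range]
      refine ⟨⟨by simp only; omega, by simp only; omega⟩, lt_min hl h2'.2.2⟩
    · rintro ⟨⟨i, j⟩, hp, rfl⟩
      rw [Finset.mem_filter, Finset.mem_product, Finset.mem_range, Finset.mem_range] at hp
      simp only at hp
      have hl := lt_min_iff.mp hp.2
      refine ⟨mem_Ul.mpr ⟨by omega, by omega, hl.1⟩, ?_⟩
      have : (((i + 1 : ℕ) : ℤ), (j : ℤ)) ∈ Ul m n f l := mem_Ul.mpr ⟨by omega, by omega, hl.2⟩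
      simpa [cst] using this
  rw [this, Finset.card_image_of_injective _ cst_inj, card_filt]

private lemma card_EV (m n : ℕ) (f : ℕ → ℕ → ℝ) (l : ℝ) :
    ((EV (Ul m n f l)).card : ℝ)
      = ∑ p ∈ range (m + 1) ×ˢ range n, ind (min (f p.1 p.2) (f p.1 (p.2 + 1))) l := by
  have : EV (Ul m n f l) = ((range (m + 1) ×ˢ range n).filter
      (fun p => l < min (f p.1 p.2) (f p.1 (p.2 + 1)))).image cst := by
    ext v
    rw [mem_EV, Finset.mem_image]
    constructor
    · rintro ⟨h1, h2⟩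
      obtain ⟨i, j, rfl, hi, hj, hl⟩ := Ul_form h1
      have h2' : ((i : ℤ), ((j + 1 : ℕ) : ℤ)) ∈ Ul m n f l := by simpa using h2
      rw [mem_Ul] at h2'
      refine ⟨(i, j), ?_, rfl⟩
      rw [Finset.mem_filter, Finset.mem_product, Finset.mem_range, Finset.mem_range]
      refine ⟨⟨by simp only; omega, by simp only; omega⟩, lt_min hl h2'.2.2⟩
    · rintro ⟨⟨i, j⟩, hp, rfl⟩
      rw [Finset.mem_filter, Finset.mem_product, Finset.mem_range, Finset.mem_range] at hp
      simp only at hp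
      have hl := lt_min_iff.mp hp.2
      refine ⟨mem_Ul.mpr ⟨by omega, by omega, hl.1⟩, ?_⟩
      have : ((i : ℤ), ((j + 1 : ℕ) : ℤ)) ∈ Ul m n f l := mem_Ul.mpr ⟨by omega, by omega, hl.2⟩
      simpa [cst] using this
  rw [this, Finset.card_image_of_injective _ cst_inj, card_filt]

private lemma card_FF (m n : ℕ) (f : ℕ → ℕ → ℝ) (l : ℝ) :
    ((FF (Ul m n f l)).card : ℝ)
      = ∑ p ∈ range m ×ˢ range n, ind (min (min (f p.1 p.2) (f (p.1 + 1) p.2))
          (min (f p.1 (p.2 + 1)) (f (p.1 + 1) (p.2 + 1)))) l := by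
  have : FF (Ul m n f l) = ((range m ×ˢ range n).filter
      (fun p => l < min (min (f p.1 p.2) (f (p.1 + 1) p.2))
          (min (f p.1 (p.2 + 1)) (f (p.1 + 1) (p.2 + 1))))).image cst := by
    ext v
    rw [mem_FF, Finset.mem_image]
    constructor
    · rintro ⟨h1, h2, h3, h4⟩
      obtain ⟨i, j, rfl, hi, hj, hl⟩ := Ul_form h1
      have h2' : (((i + 1 : ℕ) : ℤ), (j : ℤ)) ∈ Ul m n f l := by simpa using h2
      have h3' : ((i : ℤ), ((j + 1 : ℕ) : ℤ)) ∈ Ul m n f l := by simpa using h3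
      have h4' : (((i + 1 : ℕ) : ℤ), ((j + 1 : ℕ) : ℤ)) ∈ Ul m n f l := by simpa using h4
      rw [mem_Ul] at h2' h3' h4'
      refine ⟨(i, j), ?_, rfl⟩
      rw [Finset.mem_filter, Finset.mem_product, Finset.mem_range, Finset.mem_range]
      refine ⟨⟨by simp only; omega, by simp only; omega⟩,
        lt_min (lt_min hl h2'.2.2) (lt_min h3'.2.2 h4'.2.2)⟩
    · rintro ⟨⟨i, j⟩, hp, rfl⟩
      rw [Finset.mem_filter, Finset.mem_product, Finset.mem_range, Finset.mem_range] at hp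
      simp only [lt_min_iff] at hp
      obtain ⟨⟨hi, hj⟩, ⟨l1, l2⟩, l3, l4⟩ := hp
      refine ⟨mem_Ul.mpr ⟨by omega, by omega, l1⟩, ?_, ?_, ?_⟩
      · have : (((i + 1 : ℕ) : ℤ), (j : ℤ)) ∈ Ul m n f l := mem_Ul.mpr ⟨by omega, by omega, l2⟩
        simpa [cst] using this
      · have : ((i : ℤ), ((j + 1 : ℕ) : ℤ)) ∈ Ul m n f l := mem_Ul.mpr ⟨by omega, by omega, l3⟩
        simpa [cst] using this
      · have : (((i + 1 : ℕ) : ℤ), ((j + 1 : ℕ) : ℤ)) ∈ Ul m n f l :=
          mem_Ul.mpr ⟨by omega, by omega, l4⟩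
        simpa [cst] using this
  rw [this, Finset.card_image_of_injective _ cst_inj, card_filt]


/-- the level inequality -/
private lemma level (m n : ℕ) (f : ℕ → ℕ → ℝ)
    (hf0 : ∀ i j, i ≤ m → j ≤ n → 0 ≤ f i j)
    (hint : ∀ i j, 0 < i → i < m → 0 < j → j < n →
      f (i - 1) j < f i j ∨ f (i + 1) j < f i j ∨ f i (j - 1) < f i j ∨ f i (j + 1) < f i j)
    {ι : Type*} [Fintype ι] (B : ι → Set (ℕ × ℕ)) (μ : ι → ℝ) (z : ι → ℕ × ℕ)
    (hz : ∀ k, z k ∈ B k ∧ (z k).1 ≤ m ∧ (z k).2 ≤ n)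
    (hdis : ∀ k k' v, v ∈ B k → v ∈ B k' → k = k')
    (hH : ∀ k i j, i + 1 ≤ m → j ≤ n →
      (((i, j) ∈ B k ↔ (i + 1, j) ∈ B k) ∨ min (f i j) (f (i + 1) j) ≤ μ k))
    (hV : ∀ k i j, i ≤ m → j + 1 ≤ n →
      (((i, j) ∈ B k ↔ (i, j + 1) ∈ B k) ∨ min (f i j) (f i (j + 1)) ≤ μ k))
    (zs : ℕ × ℕ) (hzs : zs.1 ≤ m ∧ zs.2 ≤ n ∧ ∀ k, zs ∉ B k)
    (l : ℝ) :
    ((EH (Ul m n f l)).card : ℝ) + ((EV (Ul m n f l)).card : ℝ)
      + (ind (f zs.1 zs.2) l
        + ∑ k, (ind (f (z k).1 (z k).2) l - ind (min (μ k) (f (z k).1 (z k).2)) l))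
      ≤ ((Ul m n f l).card : ℝ) + ((FF (Ul m n f l)).card : ℝ) := by
  classical
  set P : Option ι → Prop := fun o => match o with
    | none => l < f zs.1 zs.2
    | some k => μ k ≤ l ∧ l < f (z k).1 (z k).2 with hP
  set B' : Option ι → Set (ℤ × ℤ) := fun o => match o with
    | none => {v | ∀ k, P (some k) → (v.1.toNat, v.2.toNat) ∉ B k}
    | some k => {v | (v.1.toNat, v.2.toNat) ∈ B k} with hB'
  set g : ℤ × ℤ → ℝ := fun v =>
    if 0 ≤ v.1 ∧ v.1 ≤ m ∧ 0 ≤ v.2 ∧ v.2 ≤ n then f v.1.toNat v.2.toNat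
    else -((|v.1| : ℤ) : ℝ) - ((|v.2| : ℤ) : ℝ) - 1 with hg
  have gout : ∀ v : ℤ × ℤ, ¬ (0 ≤ v.1 ∧ v.1 ≤ m ∧ 0 ≤ v.2 ∧ v.2 ≤ n) →
      v ∉ Ul m n f l ∧ g v = -((|v.1| : ℤ) : ℝ) - ((|v.2| : ℤ) : ℝ) - 1 := by
    intro v hv
    refine ⟨?_, by simp only [hg]; rw [if_neg hv]⟩
    intro hm
    obtain ⟨i, j, rfl, hi, hj, -⟩ := Ul_form hm
    apply hv
    simp only
    refine ⟨by positivity, by exact_mod_cast hi, by positivity, by exact_mod_cast hj⟩
  have gin : ∀ i j : ℕ, i ≤ m → j ≤ n → g ((i : ℤ), (j : ℤ)) = f i j := by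
    intro i j hi hj
    simp only [hg]
    rw [if_pos ⟨by positivity, by exact_mod_cast hi, by positivity, by exact_mod_cast hj⟩]
    simp
  have gneg : ∀ v : ℤ × ℤ, ¬ (0 ≤ v.1 ∧ v.1 ≤ m ∧ 0 ≤ v.2 ∧ v.2 ≤ n) → g v < 0 := by
    intro v hv
    rw [(gout v hv).2]
    have h1 : (0 : ℝ) ≤ ((|v.1| : ℤ) : ℝ) := by exact_mod_cast abs_nonneg _
    have h2 : (0 : ℝ) ≤ ((|v.2| : ℤ) : ℝ) := by exact_mod_cast abs_nonneg _
    linarith
  have hU : ∀ v, v ∉ Ul m n f l → ∃ w, Adj v w ∧ w ∉ Ul m n f l ∧ g w < g v := by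
    intro v hv
    by_cases hin : 0 ≤ v.1 ∧ v.1 ≤ m ∧ 0 ≤ v.2 ∧ v.2 ≤ n
    · obtain ⟨a, b⟩ := v
      simp only at hin
      obtain ⟨h1, h2, h3, h4⟩ := hin
      lift a to ℕ using h1
      lift b to ℕ using h3
      have ha : a ≤ m := by exact_mod_cast h2
      have hb : b ≤ n := by exact_mod_cast h4
      have hfl : ¬ l < f a b := fun hc => hv (mem_Ul.mpr ⟨ha, hb, hc⟩)
      push Not at hfl
      have hfg := gin a b ha hb
      have hf0' := hf0 a b ha hb
      by_cases ha0 : a = 0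
      · refine ⟨((a : ℤ) - 1, (b : ℤ)), Or.inr (Or.inl rfl), ?_, ?_⟩
        · exact (gout _ (by simp only; omega)).1
        · rw [hfg]
          exact lt_of_lt_of_le (gneg _ (by simp only; omega)) hf0'
      by_cases ham : a = m
      · refine ⟨((a : ℤ) + 1, (b : ℤ)), Or.inl rfl, ?_, ?_⟩
        · exact (gout _ (by simp only; omega)).1
        · rw [hfg]
          exact lt_of_lt_of_le (gneg _ (by simp only; omega)) hf0'
      by_cases hb0 : b = 0
      · refine ⟨((a : ℤ), (b : ℤ) - 1), Or.inr (Or.inr (Or.inr rfl)), ?_, ?_⟩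
        · exact (gout _ (by simp only; omega)).1
        · rw [hfg]
          exact lt_of_lt_of_le (gneg _ (by simp only; omega)) hf0'
      by_cases hbn : b = n
      · refine ⟨((a : ℤ), (b : ℤ) + 1), Or.inr (Or.inr (Or.inl rfl)), ?_, ?_⟩
        · exact (gout _ (by simp only; omega)).1
        · rw [hfg]
          exact lt_of_lt_of_le (gneg _ (by simp only; omega)) hf0'
      rcases hint a b (by omega) (by omega) (by omega) (by omega) with h | h | h | h
      · have e : (((a - 1 : ℕ) : ℤ), (b : ℤ)) = ((a : ℤ) - 1, (b : ℤ)) := by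
          ext
          · simp only; omega
          · rfl
        refine ⟨((a : ℤ) - 1, (b : ℤ)), Or.inr (Or.inl rfl), ?_, ?_⟩
        · rw [← e, mem_Ul]
          rintro ⟨-, -, h'⟩
          linarith
        · rw [hfg, ← e, gin _ _ (by omega) hb]
          exact h
      · have e : (((a + 1 : ℕ) : ℤ), (b : ℤ)) = ((a : ℤ) + 1, (b : ℤ)) := by
          ext
          · simp only; omega
          · rfl
        refine ⟨((a : ℤ) + 1, (b : ℤ)), Or.inl rfl, ?_, ?_⟩
        · rw [← e, mem_Ul]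
          rintro ⟨-, -, h'⟩
          linarith
        · rw [hfg, ← e, gin _ _ (by omega) hb]
          exact h
      · have e : ((a : ℤ), ((b - 1 : ℕ) : ℤ)) = ((a : ℤ), (b : ℤ) - 1) := by
          ext
          · rfl
          · simp only; omega
        refine ⟨((a : ℤ), (b : ℤ) - 1), Or.inr (Or.inr (Or.inr rfl)), ?_, ?_⟩
        · rw [← e, mem_Ul]
          rintro ⟨-, -, h'⟩
          linarith
        · rw [hfg, ← e, gin _ _ ha (by omega)]
          exact h
      · have e : ((a : ℤ), ((b + 1 : ℕ) : ℤ)) = ((a : ℤ), (b : ℤ) + 1) := by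
          ext
          · rfl
          · simp only; omega
        refine ⟨((a : ℤ), (b : ℤ) + 1), Or.inr (Or.inr (Or.inl rfl)), ?_, ?_⟩
        · rw [← e, mem_Ul]
          rintro ⟨-, -, h'⟩
          linarith
        · rw [hfg, ← e, gin _ _ ha (by omega)]
          exact h
    · -- outside: move away
      have key : ∀ w : ℤ × ℤ, ¬ (0 ≤ w.1 ∧ w.1 ≤ m ∧ 0 ≤ w.2 ∧ w.2 ≤ n) →
          |v.1| + |v.2| < |w.1| + |w.2| → w ∉ Ul m n f l ∧ g w < g v := by
        intro w hw hlt
        refine ⟨(gout w hw).1, ?_⟩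
        rw [(gout w hw).2, (gout v hin).2]
        have : ((|v.1| : ℤ) : ℝ) + ((|v.2| : ℤ) : ℝ) < ((|w.1| : ℤ) : ℝ) + ((|w.2| : ℤ) : ℝ) := by
          exact_mod_cast hlt
        linarith
      by_cases c1 : v.1 < 0
      · refine ⟨(v.1 - 1, v.2), Or.inr (Or.inl rfl), key _ (by simp only; omega) ?_⟩
        simp only
        rw [abs_of_neg c1, abs_of_neg (by linarith : v.1 - 1 < 0)]
        linarith
      by_cases c2 : (m : ℤ) < v.1
      · refine ⟨(v.1 + 1, v.2), Or.inl rfl, key _ (by simp only; omega) ?_⟩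
        simp only
        rw [abs_of_nonneg (by omega : 0 ≤ v.1), abs_of_nonneg (by omega : 0 ≤ v.1 + 1)]
        linarith
      by_cases c3 : v.2 < 0
      · refine ⟨(v.1, v.2 - 1), Or.inr (Or.inr (Or.inr rfl)), key _ (by simp only; omega) ?_⟩
        simp only
        rw [abs_of_neg c3, abs_of_neg (by linarith : v.2 - 1 < 0)]
        linarith
      by_cases c4 : (n : ℤ) < v.2
      · refine ⟨(v.1, v.2 + 1), Or.inr (Or.inr (Or.inl rfl)), key _ (by simp only; omega) ?_⟩
        simp only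
        rw [abs_of_nonneg (by omega : 0 ≤ v.2), abs_of_nonneg (by omega : 0 ≤ v.2 + 1)]
        linarith
      exact absurd ⟨by omega, by omega, by omega, by omega⟩ hin
  -- closedness of the active sets
  have hclk : ∀ k, P (some k) → ∀ v ∈ Ul m n f l, ∀ w ∈ Ul m n f l, Adj v w →
      ((v.1.toNat, v.2.toNat) ∈ B k ↔ (w.1.toNat, w.2.toNat) ∈ B k) := by
    intro k hk v hv w hw hadj
    obtain ⟨i, j, rfl, hi, hj, hlv⟩ := Ul_form hv
    obtain ⟨i', j', rfl, hi', hj', hlw⟩ := Ul_form hw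
    simp only [Int.toNat_natCast]
    have hmk : μ k ≤ l := hk.1
    unfold Adj at hadj
    simp only [Prod.mk.injEq] at hadj
    rcases hadj with ⟨e1, e2⟩ | ⟨e1, e2⟩ | ⟨e1, e2⟩ | ⟨e1, e2⟩
    · have a1 : i' = i + 1 := by omega
      have a2 : j' = j := by omega
      subst a1 a2
      rcases hH k i j' hi' hj with h | h
      · exact h
      · exact absurd (lt_min hlv hlw) (not_lt.mpr (h.trans hmk))
    · have a1 : i = i' + 1 := by omega
      have a2 : j' = j := by omega
      subst a1 a2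
      rcases hH k i' j' hi hj with h | h
      · exact h.symm
      · exact absurd (lt_min hlw hlv) (not_lt.mpr (h.trans hmk))
    · have a1 : i' = i := by omega
      have a2 : j' = j + 1 := by omega
      subst a1 a2
      rcases hV k i' j hi hj' with h | h
      · exact h
      · exact absurd (lt_min hlv hlw) (not_lt.mpr (h.trans hmk))
    · have a1 : i' = i := by omega
      have a2 : j = j' + 1 := by omega
      subst a1 a2
      rcases hV k i' j' hi hj with h | h
      · exact h.symm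
      · exact absurd (lt_min hlw hlv) (not_lt.mpr (h.trans hmk))
  have main := euler_ge (ι := {o : Option ι // P o}) (Ul m n f l) g hU (fun o => B' o.1)
    (by
      rintro ⟨o, ho⟩ v hv w hw hadj hvB
      match o, ho, hvB with
      | none, _, hvB =>
        intro k hk hwk
        exact hvB k hk ((hclk k hk v hv w hw hadj).mpr hwk)
      | some k, hk, hvB => exact (hclk k hk v hv w hw hadj).mp hvB)
    (by
      rintro ⟨o, ho⟩ ⟨o', ho'⟩ v hv hv'
      match o, ho, hv, o', ho', hv' with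
      | none, _, _, none, _, _ => rfl
      | none, _, hv, some k, hk, hv' => exact absurd hv' (hv k hk)
      | some k, hk, hv, none, _, hv' => exact absurd hv (hv' k hk)
      | some k, _, hv, some k', _, hv' =>
        have := hdis k k' _ hv hv'
        subst this
        rfl)
    (by
      rintro ⟨o, ho⟩
      match o, ho with
      | none, ho =>
        refine ⟨((zs.1 : ℤ), (zs.2 : ℤ)), mem_Ul.mpr ⟨hzs.1, hzs.2.1, ho⟩, ?_⟩
        intro k _ hk
        exact hzs.2.2 k (by simpa using hk)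
      | some k, hk =>
        refine ⟨(((z k).1 : ℤ), ((z k).2 : ℤ)), mem_Ul.mpr ⟨(hz k).2.1, (hz k).2.2, hk.2⟩, ?_⟩
        show (((((z k).1 : ℤ)).toNat, (((z k).2 : ℤ)).toNat) : ℕ × ℕ) ∈ B k
        simpa using (hz k).1)
  have hcard : ((Fintype.card {o : Option ι // P o} : ℕ) : ℝ) = ind (f zs.1 zs.2) l
        + ∑ k, (ind (f (z k).1 (z k).2) l - ind (min (μ k) (f (z k).1 (z k).2)) l) := by
    rw [Fintype.card_subtype, Finset.card_filter]
    push_cast
    rw [Fintype.sum_option]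
    congr 1
    apply Finset.sum_congr rfl
    intro k _
    simp only [hP, ind]
    by_cases h1 : l < f (z k).1 (z k).2
    · by_cases h2 : μ k ≤ l
      · have h3 : ¬ l < μ k := not_lt.mpr h2
        simp [h1, h2, h3]
      · have h3 : l < μ k := not_le.mp h2
        simp [h1, h2, h3]
    · simp [h1]
  rw [← hcard]
  have hmain : (((EH (Ul m n f l)).card + (EV (Ul m n f l)).card
      + Fintype.card {o : Option ι // P o} : ℕ) : ℝ)
      ≤ (((Ul m n f l).card + (FF (Ul m n f l)).card : ℕ) : ℝ) := by exact_mod_cast main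
  push_cast at hmain
  linarith

/-- **STAR, discrete form, with extra components.** -/
theorem star_discrete (m n : ℕ) (f : ℕ → ℕ → ℝ)
    (hf0 : ∀ i j, i ≤ m → j ≤ n → 0 ≤ f i j)
    (hint : ∀ i j, 0 < i → i < m → 0 < j → j < n →
      f (i - 1) j < f i j ∨ f (i + 1) j < f i j ∨ f i (j - 1) < f i j ∨ f i (j + 1) < f i j)
    {ι : Type*} [Fintype ι] (B : ι → Set (ℕ × ℕ)) (μ : ι → ℝ) (hμ : ∀ k, 0 ≤ μ k)
    (z : ι → ℕ × ℕ)
    (hz : ∀ k, z k ∈ B k ∧ (z k).1 ≤ m ∧ (z k).2 ≤ n)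
    (hdis : ∀ k k' v, v ∈ B k → v ∈ B k' → k = k')
    (hH : ∀ k i j, i + 1 ≤ m → j ≤ n →
      (((i, j) ∈ B k ↔ (i + 1, j) ∈ B k) ∨ min (f i j) (f (i + 1) j) ≤ μ k))
    (hV : ∀ k i j, i ≤ m → j + 1 ≤ n →
      (((i, j) ∈ B k ↔ (i, j + 1) ∈ B k) ∨ min (f i j) (f i (j + 1)) ≤ μ k))
    (zs : ℕ × ℕ) (hzs : zs.1 ≤ m ∧ zs.2 ≤ n ∧ ∀ k, zs ∉ B k) :
    f zs.1 zs.2 + ∑ k, (f (z k).1 (z k).2 - μ k) ≤
      ∑ i ∈ range m, ∑ j ∈ range n, cellJ f i j
        + ∑ j ∈ range n, (f m j - min (f m j) (f m (j + 1)))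
        + ∑ i ∈ range m, (f i n - min (f i n) (f (i + 1) n)) + f m n := by
  classical
  set M : ℝ := ∑ p ∈ range (m + 1) ×ˢ range (n + 1), f p.1 p.2 with hM
  have hle : ∀ i j, i ≤ m → j ≤ n → f i j ≤ M := by
    intro i j hi hj
    have := Finset.single_le_sum (s := range (m + 1) ×ˢ range (n + 1))
      (f := fun p : ℕ × ℕ => f p.1 p.2) (fun p hp => by
        rw [Finset.mem_product, Finset.mem_range, Finset.mem_range] at hp
        exact hf0 _ _ (by omega) (by omega))
      (a := (i, j)) (by rw [Finset.mem_product, Finset.mem_range, Finset.mem_range]; simp only; omega)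
    exact this
  have LV : Lay M (fun l => ∑ p ∈ range (m + 1) ×ˢ range (n + 1), ind (f p.1 p.2) l)
      (∑ p ∈ range (m + 1) ×ˢ range (n + 1), f p.1 p.2) :=
    lay_sum _ (fun p : ℕ × ℕ => ind (f p.1 p.2)) _ (fun p hp => by
      rw [Finset.mem_product, Finset.mem_range, Finset.mem_range] at hp
      exact lay_ind (hf0 _ _ (by omega) (by omega)) (hle _ _ (by omega) (by omega)))
  have LH : Lay M (fun l => ∑ p ∈ range m ×ˢ range (n + 1),
        ind (min (f p.1 p.2) (f (p.1 + 1) p.2)) l)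
      (∑ p ∈ range m ×ˢ range (n + 1), min (f p.1 p.2) (f (p.1 + 1) p.2)) :=
    lay_sum _ (fun p : ℕ × ℕ => ind (min (f p.1 p.2) (f (p.1 + 1) p.2))) _ (fun p hp => by
      rw [Finset.mem_product, Finset.mem_range, Finset.mem_range] at hp
      exact lay_ind (le_min (hf0 _ _ (by omega) (by omega)) (hf0 _ _ (by omega) (by omega)))
        ((min_le_left _ _).trans (hle _ _ (by omega) (by omega))))
  have LW : Lay M (fun l => ∑ p ∈ range (m + 1) ×ˢ range n,
        ind (min (f p.1 p.2) (f p.1 (p.2 + 1))) l)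
      (∑ p ∈ range (m + 1) ×ˢ range n, min (f p.1 p.2) (f p.1 (p.2 + 1))) :=
    lay_sum _ (fun p : ℕ × ℕ => ind (min (f p.1 p.2) (f p.1 (p.2 + 1)))) _ (fun p hp => by
      rw [Finset.mem_product, Finset.mem_range, Finset.mem_range] at hp
      exact lay_ind (le_min (hf0 _ _ (by omega) (by omega)) (hf0 _ _ (by omega) (by omega)))
        ((min_le_left _ _).trans (hle _ _ (by omega) (by omega))))
  have LF : Lay M (fun l => ∑ p ∈ range m ×ˢ range n,
        ind (min (min (f p.1 p.2) (f (p.1 + 1) p.2))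
          (min (f p.1 (p.2 + 1)) (f (p.1 + 1) (p.2 + 1)))) l)
      (∑ p ∈ range m ×ˢ range n, min (min (f p.1 p.2) (f (p.1 + 1) p.2))
          (min (f p.1 (p.2 + 1)) (f (p.1 + 1) (p.2 + 1)))) :=
    lay_sum _ (fun p : ℕ × ℕ => ind (min (min (f p.1 p.2) (f (p.1 + 1) p.2))
          (min (f p.1 (p.2 + 1)) (f (p.1 + 1) (p.2 + 1))))) _ (fun p hp => by
      rw [Finset.mem_product, Finset.mem_range, Finset.mem_range] at hp
      exact lay_ind (le_min (le_min (hf0 _ _ (by omega) (by omega)) (hf0 _ _ (by omega) (by omega)))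
        (le_min (hf0 _ _ (by omega) (by omega)) (hf0 _ _ (by omega) (by omega))))
        (((min_le_left _ _).trans (min_le_left _ _)).trans (hle _ _ (by omega) (by omega))))
  have LI : Lay M (fun l => ∑ k, (ind (f (z k).1 (z k).2) l
        - ind (min (μ k) (f (z k).1 (z k).2)) l))
      (∑ k, (f (z k).1 (z k).2 - min (μ k) (f (z k).1 (z k).2))) :=
    lay_sum Finset.univ (fun k l => ind (f (z k).1 (z k).2) l
        - ind (min (μ k) (f (z k).1 (z k).2)) l) _ (fun k _ =>
      lay_sub (lay_ind (hf0 _ _ (hz k).2.1 (hz k).2.2) (hle _ _ (hz k).2.1 (hz k).2.2))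
        (lay_ind (le_min (hμ k) (hf0 _ _ (hz k).2.1 (hz k).2.2))
          ((min_le_right _ _).trans (hle _ _ (hz k).2.1 (hz k).2.2))))
  have LS : Lay M (ind (f zs.1 zs.2)) (f zs.1 zs.2) :=
    lay_ind (hf0 _ _ hzs.1 hzs.2.1) (hle _ _ hzs.1 hzs.2.1)
  have LT := lay_sub (lay_add LV LF) (lay_add (lay_add LH LW) (lay_add LS LI))
  have h0 := lay_nonneg LT (fun l _ => by
    have := level m n f hf0 hint B μ z hz hdis hH hV zs hzs l
    rw [card_U, card_EH, card_EV, card_FF] at this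
    linarith)
  have hI : ∑ k, (f (z k).1 (z k).2 - μ k)
      ≤ ∑ k, (f (z k).1 (z k).2 - min (μ k) (f (z k).1 (z k).2)) :=
    Finset.sum_le_sum (fun k _ => by
      have := min_le_left (μ k) (f (z k).1 (z k).2)
      linarith)
  have hsplit : ∑ i ∈ range m, ∑ j ∈ range n, cellJ f i j
        + ∑ j ∈ range n, (f m j - min (f m j) (f m (j + 1)))
        + ∑ i ∈ range m, (f i n - min (f i n) (f (i + 1) n)) + f m n
      = (∑ p ∈ range (m + 1) ×ˢ range (n + 1), f p.1 p.2)
        + (∑ p ∈ range m ×ˢ range n, min (min (f p.1 p.2) (f (p.1 + 1) p.2))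
          (min (f p.1 (p.2 + 1)) (f (p.1 + 1) (p.2 + 1))))
        - (∑ p ∈ range m ×ˢ range (n + 1), min (f p.1 p.2) (f (p.1 + 1) p.2))
        - (∑ p ∈ range (m + 1) ×ˢ range n, min (f p.1 p.2) (f p.1 (p.2 + 1))) := by
    rw [Finset.sum_product, Finset.sum_product, Finset.sum_product, Finset.sum_product]
    simp only [Finset.sum_range_succ, Finset.sum_add_distrib, Finset.sum_sub_distrib, cellJ]
    ring
  rw [hsplit]
  linarith

end Pool.H47.EC
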